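import Pool.Agent.LibMA62.Main

/-!
Aronszajn trees at double successors of a singular cardinal.

Let `κ` be a singular cardinal of uncountable cofinality such that the set `T_κ` of the cardinals
`μ < κ` with a `μ⁺⁺`-Aronszajn tree is stationary in `κ`, and let `lam > κ` be a measurable cardinal.
Then there is a complete Boolean algebra `B` such that in the Boolean-valued universe `V^B` the cardinal
`κ` is singular of uncountable cofinality, `T_κ` is stationary in `κ`, and there is no `κ⁺⁺`-Aronszajn
tree. So the statement of Q1 is not a theorem of ZFC (relative to a measurable cardinal; the
hypotheses hold for each singular `κ < lam` of uncountable cofinality if GCH holds, by Specker's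
theorem).

The proof: a Mitchell-type forcing. A condition consists of a finite partial function (`lam` Cohen
reals) and a partial function of size at most `κ` on `lam × (κ⁺ × ω)` whose value at a point of the
column `a` is a name for a bit which depends only on the Cohen reals before `a`. The Cohen part has
the countable chain condition, the second part is closed under unions of chains of length `≤ κ`, and
the columns collapse all `a < lam` to `κ⁺`. Hence all cardinals `≤ κ⁺` are preserved, `lam` becomes
`κ⁺⁺`, stationary subsets of `κ` and Aronszajn trees of height `≤ κ` are preserved. A tree of height
`lam` has, for almost all inaccessible `d < lam`, a branch below each node of level `d`; by the main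
lemma the decisions on it depend only on the part of the forcing below `d`, and a normal ultrafilter
glues these decisions together to a cofinal branch.
-/

namespace Pool.Agent.Results.MP_2d5209_lc.NoTreeAtKappa

open Cardinal Pool.Agent.LibPlas90 Pool.Agent.LibTk83 Pool.Agent.LibMA62

theorem result (κ lam : Cardinal.{0}) (h1 : ℵ₀ < κ.ord.cof) (h2 : κ.ord.cof < κ)
    (hT : TStat κ) (hκ : κ < lam) (hlam : IsMeas lam) :
    ∃ (B : Type) (_ : CompleteBooleanAlgebra B) (_ : Nontrivial B),
      isCex (ck B κ.ord.ToType) = ⊤ ∧ (⨆ k : BSet B, isCex k) = ⊤ :=
  main κ lam h1 h2 hT hκ hlam

end Pool.Agent.Results.MP_2d5209_lc.NoTreeAtKappa
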